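import Pool.Agent.Helper12.MA.StB
import Pool.Agent.Helper12.MA.Lib

/-!
# Project MA, module CRN: corners

Only `r`, `r'` are on a side and cofacial with both `p` and `q`; a vertex of the top and one of the right side are not cofacial.
-/

set_option autoImplicit false

namespace Pool.Agent.Helper2.MA

open Pool.Agent.Helper12.MA
open Pool.Agent.Helper51.AJ (IsMinor Planar Apex ExMinor Con Tch)
open Pool.Agent.Helper12.NK (rst Kc add cnt Pcy IsFace Cof plus)

private theorem con_dl {V : Type} {G : SimpleGraph V} {p q : V} {S : Set V} (h : p ∉ S ∨ q ∉ S) (hc : Con G S) :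
    Con (dl G p q) S := by
  have e : (dl G p q).induce S = G.induce S := by
    ext a b
    constructor
    · intro k
      exact k.1
    · intro k
      refine ⟨k, ?_, ?_⟩
      · rintro ⟨h1, h2⟩
        rcases h with h | h
        · exact h (h1 ▸ a.2)
        · exact h (h2 ▸ b.2)
      · rintro ⟨h1, h2⟩
        rcases h with h | h
        · exact h (h2 ▸ b.2)
        · exact h (h1 ▸ a.2)
  unfold Pool.Agent.Helper51.AJ.Con at *
  rw [e]
  exact hc

private theorem dl_comm {V : Type} (G : SimpleGraph V) (p q : V) : dl G q p = dl G p q := by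
  ext a b
  constructor
  · intro h
    exact ⟨h.1, h.2.2, h.2.1⟩
  · intro h
    exact ⟨h.1, h.2.2, h.2.1⟩

/-- from any vertex of a connected set one reaches one of `p`, `q` by a connected set without the other -/
private theorem reach_one {V : Type} {G : SimpleGraph V} {p q : V} (hpq : p ≠ q) (W : Set V) :
    ∀ (a b : W), (G.induce W).Walk a b → (b.1 = p ∨ b.1 = q) →
      ∃ L : Set V, L ⊆ W ∧ Con G L ∧ a.1 ∈ L ∧ ((p ∈ L ∧ q ∉ L) ∨ (q ∈ L ∧ p ∉ L)) := by
  have one : ∀ a : W, (a.1 = p ∨ a.1 = q) →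
      ∃ L : Set V, L ⊆ W ∧ Con G L ∧ a.1 ∈ L ∧ ((p ∈ L ∧ q ∉ L) ∨ (q ∈ L ∧ p ∉ L)) := by
    intro a ha
    refine ⟨{a.1}, Set.singleton_subset_iff.2 a.2, Pool.Agent.Helper51.AJ.con_singleton G a.1, rfl, ?_⟩
    rcases ha with ha | ha
    · exact Or.inl ⟨ha.symm, fun h => hpq (ha.symm.trans (Set.mem_singleton_iff.1 h).symm)⟩
    · exact Or.inr ⟨ha.symm, fun h => hpq ((Set.mem_singleton_iff.1 h).trans ha)⟩
  intro a b w
  induction w with
  | nil => exact fun h => one _ h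
  | @cons u c d hadj w ih =>
    intro hb
    by_cases hu : u.1 = p ∨ u.1 = q
    · exact one u hu
    · obtain ⟨L, h1, h2, h3, h4⟩ := ih hb
      have hpu : p ∉ ({u.1} : Set V) := fun h => hu (Or.inl (Set.mem_singleton_iff.1 h).symm)
      have hqu : q ∉ ({u.1} : Set V) := fun h => hu (Or.inr (Set.mem_singleton_iff.1 h).symm)
      refine ⟨{u.1} ∪ L, Set.union_subset (Set.singleton_subset_iff.2 u.2) h1, ?_, Or.inl rfl, ?_⟩
      · exact Pool.Agent.Helper51.AJ.con_union (Pool.Agent.Helper51.AJ.con_singleton G u.1) h2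
          ⟨u.1, rfl, c.1, h3, hadj⟩
      · rcases h4 with h4 | h4
        · exact Or.inl ⟨Or.inr h4.1, fun h => h.elim hqu h4.2⟩
        · exact Or.inr ⟨Or.inr h4.1, fun h => h.elim hpu h4.2⟩

/-- four deleted vertices leave a connected graph -/
private theorem con4 {V : Type} {G : SimpleGraph V} (hG : Bh G) (a b c d : V) :
    Con G ({a, b, c, d} : Set V)ᶜ := by
  apply hG.kc
  have h1 := Set.ncard_insert_le a ({b, c, d} : Set V)
  have h2 := Set.ncard_insert_le b ({c, d} : Set V)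
  have h3 := Set.ncard_insert_le c ({d} : Set V)
  have h4 := Set.ncard_singleton d
  omega

/-- elementary facts on a configuration -/
private theorem basic {V : Type} {G : SimpleGraph V} {z v p q r r' : V} {f1 f2 f3 f4 : Set V}
    (C : Cfg G z v p q r r' f1 f2 f3 f4) :
    z ≠ v ∧ z ≠ p ∧ z ≠ q ∧ z ≠ r ∧ z ≠ r' ∧ q ∉ f1 ∧ p ∉ f2 := by
  have h1 : G.Adj z v := (C.ds.nb v).2 (Or.inl rfl)
  have h2 : G.Adj z p := (C.ds.nb p).2 (Or.inr (Or.inl rfl))
  have h3 : G.Adj z q := (C.ds.nb q).2 (Or.inr (Or.inr (Or.inl rfl)))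
  have h4 : G.Adj z r := (C.ds.nb r).2 (Or.inr (Or.inr (Or.inr (Or.inl rfl))))
  have h5 : G.Adj z r' := (C.ds.nb r').2 (Or.inr (Or.inr (Or.inr (Or.inr rfl))))
  exact ⟨G.ne_of_adj h1, G.ne_of_adj h2, G.ne_of_adj h3, G.ne_of_adj h4, G.ne_of_adj h5,
    fun h => C.npq ⟨f1, C.i1, C.p1, h⟩, fun h => C.npq ⟨f2, C.i2, h, C.q2⟩⟩

/-- the first part, for the top side -/
private theorem top (hFAX : StFAX) (hPCL : StPCL) (hRIM : StRIM) {V : Type} [Finite V]
    {G : SimpleGraph V} {z v p q r r' : V} {f1 f2 f3 f4 : Set V} (C : Cfg G z v p q r r' f1 f2 f3 f4)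
    (t : V) (ht : t ∈ f1) (htz : t ≠ z) (hc : Cof (dl G p q) {v}ᶜ q t) : t = r := by
  by_contra htr
  obtain ⟨F, hF, hqF, htF⟩ := hc
  obtain ⟨zv, zp, zq, zr, -, q1, -⟩ := basic C
  obtain ⟨vp, vq, vr, -, npq, npr, -, nqr, -, -⟩ := C.ds.ne
  have htp : t ≠ p := by
    intro h
    rw [h] at htF
    exact C.npq ⟨F, hF, htF, hqF⟩
  have htv : t ≠ v := fun h => (hFAX V _ _ f1 C.i1).1 ht h
  have htq : t ≠ q := fun h => q1 (h ▸ ht)
  obtain ⟨P1, -, P3, P4, -, -⟩ := hPCL V (dl G p q) {v}ᶜ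
  have hK : PC (dl G p q) {v}ᶜ ({t} ∪ {q}) (({f1, F} : Set (Set V)) ∪ ∅) := by
    refine P3 _ _ _ _ (P4 t {f1, F} htv ?_) (P4 q ∅ vq.symm (by simp)) ?_
    · rintro E (hE | hE)
      · rw [hE]
        exact ht
      · rw [Set.mem_singleton_iff.1 hE]
        exact htF
    · exact Or.inr (Or.inr ⟨F, by simp, q, rfl, hF, hqF⟩)
  have hL : PC (dl G p q) {v}ᶜ ({v, t, q, z} : Set V)ᶜ ∅ := by
    refine P1 _ ?_ (con_dl (Or.inr fun h => h (by simp)) (con4 C.bh v t q z))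
    intro x hx hxv
    exact hx (Or.inl hxv)
  refine hRIM V G z v p q r r' f1 f2 f3 f4 C _ _ ∅ _ hL hK ?_ (by simp) ?_ ?_ 0 1 2 4 (by decide) (by decide)
    (by decide) ?_ ?_ ?_ ?_
  · rw [Set.disjoint_left]
    rintro a ha (hb | hb)
    · exact ha (by rw [Set.mem_singleton_iff.1 hb]; simp)
    · exact ha (by rw [Set.mem_singleton_iff.1 hb]; simp)
  · exact fun h => h (by simp)
  · rintro (h | h)
    · exact htz (Set.mem_singleton_iff.1 h).symm
    · exact zq h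
  · refine Or.inl ⟨rfl, ?_⟩
    rintro (h | h | h | h)
    · exact vp h.symm
    · exact htp h.symm
    · exact npq h
    · exact zp (Set.mem_singleton_iff.1 h).symm
  · exact Or.inr (Or.inl ⟨rfl, Or.inl (Or.inl rfl)⟩)
  · refine Or.inr (Or.inr (Or.inl ⟨rfl, ?_⟩))
    rintro (h | h | h | h)
    · exact vr h.symm
    · exact htr h.symm
    · exact nqr h.symm
    · exact zr (Set.mem_singleton_iff.1 h).symm
  · exact Or.inr (Or.inr (Or.inr (Or.inr (Or.inl ⟨rfl, Or.inr rfl⟩))))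

/-- the second part, for the top and the right side -/
private theorem corner (hFAX : StFAX) (hPCL : StPCL) (hRIM : StRIM) {V : Type} [Finite V]
    {G : SimpleGraph V} {z v p q r r' : V} {f1 f2 f3 f4 : Set V} (C : Cfg G z v p q r r' f1 f2 f3 f4)
    (a : V) (ha : a ∈ f1) (c : V) (hc : c ∈ f2) (az : a ≠ z) (ar : a ≠ r) (cz : c ≠ z) (cr : c ≠ r) :
    ¬ Cof (dl G p q) {v}ᶜ a c := by
  rintro ⟨F, hF, haF, hcF⟩
  obtain ⟨zv, zp, zq, zr, -, q1, p2⟩ := basic C
  obtain ⟨vp, vq, vr, -, npq, npr, -, nqr, -, -⟩ := C.ds.ne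
  have av : a ≠ v := fun h => (hFAX V _ _ f1 C.i1).1 ha h
  have cv : c ≠ v := fun h => (hFAX V _ _ f2 C.i2).1 hc h
  have aq : a ≠ q := fun h => q1 (h ▸ ha)
  have cp : c ≠ p := fun h => p2 (h ▸ hc)
  have hnot : ¬ (a = p ∧ c = q) := by
    rintro ⟨h1, h2⟩
    rw [h1] at haF
    rw [h2] at hcF
    exact C.npq ⟨F, hF, haF, hcF⟩
  obtain ⟨P1, -, P3, P4, -, -⟩ := hPCL V (dl G p q) {v}ᶜ
  have hK : PC (dl G p q) {v}ᶜ ({a} ∪ {c}) (({f1, F} : Set (Set V)) ∪ {f2}) := by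
    refine P3 _ _ _ _ (P4 a {f1, F} av ?_) (P4 c {f2} cv ?_) ?_
    · rintro E (hE | hE)
      · rw [hE]
        exact ha
      · rw [Set.mem_singleton_iff.1 hE]
        exact haF
    · intro E hE
      rw [Set.mem_singleton_iff.1 hE]
      exact hc
    · exact Or.inr (Or.inr ⟨F, by simp, c, rfl, hF, hcF⟩)
  have hcon : Con G ({v, a, c, z} : Set V)ᶜ := con4 C.bh v a c z
  have hrW : r ∈ ({v, a, c, z} : Set V)ᶜ := by
    rintro (h | h | h | h)
    · exact vr h.symm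
    · exact ar h.symm
    · exact cr h.symm
    · exact zr (Set.mem_singleton_iff.1 h).symm
  -- a connected set with `r` and exactly one of `p`, `q`
  obtain ⟨L, hLW, hLc, hrL, hL⟩ : ∃ L : Set V, L ⊆ ({v, a, c, z} : Set V)ᶜ ∧ Con G L ∧ r ∈ L ∧
      ((p ∈ L ∧ q ∉ L) ∨ (q ∈ L ∧ p ∉ L)) := by
    by_cases hap : a = p
    · have hcq : c ≠ q := fun h => hnot ⟨hap, h⟩
      have hqW : q ∈ ({v, a, c, z} : Set V)ᶜ := by
        rintro (h | h | h | h)
        · exact vq h.symm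
        · exact aq h.symm
        · exact hcq h.symm
        · exact zq (Set.mem_singleton_iff.1 h).symm
      exact ⟨_, subset_rfl, hcon, hrW, Or.inr ⟨hqW, fun h => h (by rw [hap]; simp)⟩⟩
    · have hpW : p ∈ ({v, a, c, z} : Set V)ᶜ := by
        rintro (h | h | h | h)
        · exact vp h.symm
        · exact hap h.symm
        · exact cp h.symm
        · exact zp (Set.mem_singleton_iff.1 h).symm
      obtain ⟨w⟩ := hcon.preconnected ⟨r, hrW⟩ ⟨p, hpW⟩
      exact reach_one npq _ _ _ w (Or.inl rfl)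
  have hL' : PC (dl G p q) {v}ᶜ L ∅ := by
    refine P1 L (fun x hx hxv => hLW hx (Or.inl hxv)) (con_dl ?_ hLc)
    rcases hL with h | h
    · exact Or.inr h.2
    · exact Or.inl h.2
  have hdis : Disjoint L ({a} ∪ {c}) := by
    rw [Set.disjoint_left]
    rintro x hx (h | h)
    · exact hLW hx (by rw [Set.mem_singleton_iff.1 h]; simp)
    · exact hLW hx (by rw [Set.mem_singleton_iff.1 h]; simp)
  have hzL : z ∉ L := fun h => hLW h (by simp)
  have hzK : z ∉ ({a} ∪ {c} : Set V) := by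
    rintro (h | h)
    · exact az (Set.mem_singleton_iff.1 h).symm
    · exact cz (Set.mem_singleton_iff.1 h).symm
  rcases hL with h | h
  · refine hRIM V G z v p q r r' f1 f2 f3 f4 C _ _ ∅ _ hL' hK hdis (by simp) hzL hzK 0 1 2 3 (by decide)
      (by decide) (by decide) ?_ ?_ ?_ ?_
    · exact Or.inl ⟨rfl, h.1⟩
    · exact Or.inr (Or.inl ⟨rfl, Or.inl (Or.inl rfl)⟩)
    · exact Or.inr (Or.inr (Or.inl ⟨rfl, hrL⟩))
    · exact Or.inr (Or.inr (Or.inr (Or.inl ⟨rfl, Or.inr rfl⟩)))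
  · refine hRIM V G z v p q r r' f1 f2 f3 f4 C _ _ _ ∅ hK hL' hdis.symm (by simp) hzK hzL 1 2 3 4 (by decide)
      (by decide) (by decide) ?_ ?_ ?_ ?_
    · exact Or.inr (Or.inl ⟨rfl, Or.inl (Or.inl rfl)⟩)
    · exact Or.inr (Or.inr (Or.inl ⟨rfl, hrL⟩))
    · exact Or.inr (Or.inr (Or.inr (Or.inl ⟨rfl, Or.inr rfl⟩)))
    · exact Or.inr (Or.inr (Or.inr (Or.inr (Or.inl ⟨rfl, h.1⟩))))

/-- **Module CRN** (project MA): corners. -/
theorem hCRN : StFAX → StPCL → StSYM → StRIM → StCRN := by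
  intro hFAX hPCL hSYM hRIM V _ G z v p q r r' f1 f2 f3 f4 C
  obtain ⟨C1, C2, -, -⟩ := hSYM V G z v p q r r' f1 f2 f3 f4 C
  obtain ⟨C3, -, -, -⟩ := hSYM V G z v p q r' r f4 f3 f2 f1 C2
  refine ⟨top hFAX hPCL hRIM C, ?_, ?_, top hFAX hPCL hRIM C2, corner hFAX hPCL hRIM C, ?_⟩
  · have h := top hFAX hPCL hRIM C3
    rw [dl_comm G p q] at h
    exact h
  · have h := top hFAX hPCL hRIM C1
    rw [dl_comm G p q] at h
    exact h
  · have h := corner hFAX hPCL hRIM C1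
    rw [dl_comm G p q] at h
    exact h

end Pool.Agent.Helper2.MA
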